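import Mathlib
import Pool.Agent.H26.Ladder

open Pool.Agent.H26.Chi Pool.Agent.H26.Ladder Pool.Agent.H26.Shift Cardinal

/-- For every `k` there is a graph of chromatic number aleph one with no countably infinite
complete bipartite subgraph and no odd cycle of length at most `2 * k + 1`. -/
theorem Pool.Agent.Results.MP_037fd6_co.SparseOddGirth.result (k : ℕ) :
    ∃ (V : Type) (Γ : SimpleGraph V), chi Γ = Cardinal.aleph 1 ∧
      ¬ SimpleGraph.IsContained (completeBipartiteGraph ℕ ℕ) Γ ∧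
      ∀ r : ℕ, 1 ≤ r → r ≤ k → ¬ SimpleGraph.IsContained (SimpleGraph.cycleGraph (2 * r + 1)) Γ := by
  let n := 2 * (2 * k + 1)
  let X := List (Idx n)
  let θ : Cardinal.{0} := #(Set (X × ℕ))
  have hθ : ℵ₀ ≤ θ := Cardinal.aleph0_le_mk _
  have hreg := Cardinal.isRegular_succ hθ
  let I := (Order.succ θ).ord.ToType
  have hI0 : Nonempty I := by
    rw [← Cardinal.mk_ne_zero_iff, Cardinal.mk_ord_toType]; exact hreg.pos.ne'
  letI : Inhabited I := Classical.inhabited_of_nonempty hI0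
  have hI : ∀ s : Set I, #s ≤ θ → ∃ b, ∀ a ∈ s, a < b := by
    intro s hs
    by_contra hn
    push Not at hn
    have h1 : #(⋃ a ∈ s, (insert a (Set.Iio a)) : Set I) < Order.succ θ := by
      rw [Cardinal.card_biUnion_lt_iff_forall_of_isRegular (t := fun a _ => insert a (Set.Iio a))
        hreg (Order.lt_succ_of_le hs)]
      intro a _
      exact Cardinal.mk_insert_le.trans_lt (Cardinal.add_lt_of_lt hreg.aleph0_le
        (Cardinal.mk_Iio_toType_ord_lt a) (Cardinal.one_lt_aleph0.trans_le hreg.aleph0_le))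
    have h2 : (⋃ a ∈ s, (insert a (Set.Iio a)) : Set I) = Set.univ := by
      refine Set.eq_univ_of_forall fun b => ?_
      obtain ⟨a, ha, hab⟩ := hn b
      exact Set.mem_biUnion ha (hab.eq_or_lt)
    rw [h2, Cardinal.mk_univ, Cardinal.mk_ord_toType] at h1
    exact lt_irrefl _ h1
  refine ⟨Node I X, G I (SG (Idx n) n), chi_G hI _ fun c => ?_, ?_, ?_⟩
  · obtain ⟨a, t, b, h1, h2, h3⟩ := shift_unc n c
    exact ⟨_, _, Or.inl ⟨a, t, b, rfl, rfl, h1, h2⟩, h3⟩
  · rintro ⟨f⟩
    exact noK (fun i => f (Sum.inl i)) (fun j => f (Sum.inr j))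
      (fun _ _ e => Sum.inl_injective (f.injective e))
      (fun _ _ e => Sum.inr_injective (f.injective e)) fun i j => f.toHom.map_rel (by simp)
  · rintro r h1 h2 ⟨f⟩
    obtain ⟨s, rfl⟩ : ∃ s, r = s + 1 := ⟨r - 1, by omega⟩
    have f' : (SimpleGraph.cycleGraph ((2 * s + 1) + 2)).Copy (G I (SG (Idx n) n)) := f
    refine no_odd n (fun i => ty (f' (Fin.ofNat _ i))) (fun i => adj_ty (f'.toHom.map_rel ?_))
      (2 * s + 1 + 2) ⟨s + 1, by ring⟩ (by omega) (by simp)
    rw [SimpleGraph.cycleGraph_adj]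
    right
    have : Fin.ofNat (2 * s + 1 + 2) (i + 1) = Fin.ofNat _ i + 1 := by
      ext; simp [Fin.val_add, Fin.ofNat]
    rw [this]; simp
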